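import Pool.Agent.L7h58.BP.Stm

/-!
# Project BP, part DVA: divisors close to the square root with few prime factors
-/

set_option autoImplicit false

namespace Pool.Agent.L7h61.BP

open Finset Filter Topology Pool.Agent.L7h58.BP

/-- the weight -/
noncomputable def gw (w d : ℕ) : ℝ := (3 / 4 : ℝ) ^ (om w d) * ((d : ℝ) / Nat.totient d)

theorem gw_nonneg (w d : ℕ) : 0 ≤ gw w d := by
  unfold gw
  positivity

theorem two_pow_clog_le {d : ℕ} (hd : 1 ≤ d) : 2 ^ Nat.clog 2 d ≤ 2 * d := by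
  rcases Nat.eq_or_lt_of_le hd with h | h
  · subst h
    simp
  · have h1 := Nat.pow_pred_clog_lt_self (b := 2) one_lt_two h
    have hpos : 0 < Nat.clog 2 d := Nat.clog_pos one_lt_two h
    obtain ⟨k, hk⟩ : ∃ k, Nat.clog 2 d = k + 1 := ⟨Nat.clog 2 d - 1, by omega⟩
    rw [hk] at h1 ⊢
    simp only [Nat.pred_eq_sub_one, Nat.add_sub_cancel] at h1
    rw [pow_succ]
    omega

theorem block (w : ℕ) (K : ℝ)
    (hK : ∀ X : ℕ, 2 ≤ X → ∑ n ∈ Icc 1 X, gw w n ≤ K * X * (Real.log X) ^ (-(1 / 4 : ℝ)))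
    (S : Finset ℕ) (a b : ℕ) (ha : 1 ≤ a) (h1 : ∀ d ∈ S, 1 ≤ d)
    (h : ∀ d ∈ S, a ≤ Nat.clog 2 d ∧ Nat.clog 2 d ≤ b) :
    ∑ d ∈ S, gw w d / d ≤ ∑ j ∈ Icc a b, 2 * K * ((j : ℝ) * Real.log 2) ^ (-(1 / 4 : ℝ)) := by
  rw [← Finset.sum_fiberwise_of_maps_to (g := Nat.clog 2) (t := Icc a b)
    (fun d hd => mem_Icc.2 (h d hd))]
  refine sum_le_sum fun j hj => ?_
  have hj1 : 1 ≤ j := ha.trans (mem_Icc.1 hj).1
  have hp : (0 : ℝ) < 2 ^ j := by positivity
  calc ∑ d ∈ S with Nat.clog 2 d = j, gw w d / d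
      ≤ ∑ d ∈ S with Nat.clog 2 d = j, 2 / 2 ^ j * gw w d := by
        refine sum_le_sum fun d hd => ?_
        obtain ⟨hd1, hd2⟩ := mem_filter.1 hd
        have hd3 := h1 d hd1
        have h2 : (2 : ℝ) ^ j ≤ 2 * d := by
          have := two_pow_clog_le hd3
          rw [hd2] at this
          exact_mod_cast this
        have hd0 : (0 : ℝ) < d := by exact_mod_cast hd3
        rw [div_eq_mul_inv, mul_comm]
        refine mul_le_mul_of_nonneg_right ?_ (gw_nonneg w d)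
        rw [inv_eq_one_div, div_le_div_iff₀ hd0 hp]
        linarith
    _ = 2 / 2 ^ j * ∑ d ∈ S with Nat.clog 2 d = j, gw w d := by rw [mul_sum]
    _ ≤ 2 / 2 ^ j * ∑ n ∈ Icc 1 (2 ^ j), gw w n := by
        refine mul_le_mul_of_nonneg_left ?_ (by positivity)
        refine sum_le_sum_of_subset_of_nonneg ?_ fun n _ _ => gw_nonneg w n
        intro d hd
        obtain ⟨hd1, hd2⟩ := mem_filter.1 hd
        rw [mem_Icc]
        refine ⟨h1 d hd1, ?_⟩
        rw [← hd2]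
        exact Nat.le_pow_clog one_lt_two d
    _ ≤ 2 / 2 ^ j * (K * ((2 ^ j : ℕ) : ℝ) * (Real.log ((2 ^ j : ℕ) : ℝ)) ^ (-(1 / 4 : ℝ))) := by
        refine mul_le_mul_of_nonneg_left (hK _ ?_) (by positivity)
        calc 2 = 2 ^ 1 := (pow_one 2).symm
          _ ≤ 2 ^ j := Nat.pow_le_pow_right (by norm_num) hj1
    _ = 2 * K * ((j : ℝ) * Real.log 2) ^ (-(1 / 4 : ℝ)) := by
        push_cast
        rw [Real.log_pow]
        field_simp

theorem lim (K : ℝ) : Tendsto (fun y : ℝ => y ^ (9 / 40 : ℝ) *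
    ((2 + 27 * Real.log y) * (2 * K * (y / 4) ^ (-(1 / 4 : ℝ))))) atTop (𝓝 0) := by
  have h1 : Tendsto (fun y : ℝ => y ^ (-(1 / 40) : ℝ)) atTop (𝓝 0) :=
    tendsto_rpow_neg_atTop (by norm_num)
  have h2 : Tendsto (fun y : ℝ => Real.log y / y ^ (1 / 40 : ℝ)) atTop (𝓝 0) :=
    (isLittleO_log_rpow_atTop (by norm_num : (0 : ℝ) < 1 / 40)).tendsto_div_nhds_zero
  have h3 : Tendsto (fun y : ℝ => (2 * K * (4 : ℝ) ^ (1 / 4 : ℝ)) *
      (2 * y ^ (-(1 / 40) : ℝ) + 27 * (Real.log y / y ^ (1 / 40 : ℝ)))) atTop (𝓝 0) := by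
    have := ((h1.const_mul 2).add (h2.const_mul 27)).const_mul (2 * K * (4 : ℝ) ^ (1 / 4 : ℝ))
    simpa using this
  refine h3.congr' ?_
  filter_upwards [eventually_gt_atTop 0] with y hy
  rw [Real.div_rpow hy.le (by norm_num), Real.rpow_neg (by norm_num : (0 : ℝ) ≤ 4)]
  have e1 : y ^ (-(1 / 40) : ℝ) = y ^ (9 / 40 : ℝ) * y ^ (-(1 / 4) : ℝ) := by
    rw [← Real.rpow_add hy]
    norm_num
  have e2 : Real.log y / y ^ (1 / 40 : ℝ) = Real.log y * y ^ (-(1 / 40) : ℝ) := by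
    rw [Real.rpow_neg hy.le, div_eq_mul_inv]
  rw [e2, e1]
  have e3 : ((4 : ℝ) ^ (1 / 4 : ℝ)) ≠ 0 := (Real.rpow_pos_of_pos (by norm_num) _).ne'
  field_simp

theorem log43 : Real.log (4 / 3) ≤ 3 / 10 := by
  rw [Real.log_le_iff_le_exp (by norm_num)]
  have := Real.quadratic_le_exp_of_nonneg (by norm_num : (0 : ℝ) ≤ 3 / 10)
  linarith

/-- the weight is not too small -/
theorem weight {L : ℝ} (hL : 1 ≤ L) {k : ℕ} (hk : (k : ℝ) ≤ 3 / 4 * Real.log L) :
    1 ≤ L ^ (9 / 40 : ℝ) * (3 / 4 : ℝ) ^ k := by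
  have hL0 : 0 < L := by linarith
  have hl := Real.log_nonneg hL
  have h1 : (3 / 4 : ℝ) ^ k = Real.exp (-(k * Real.log (4 / 3))) := by
    rw [← Real.rpow_natCast, Real.rpow_def_of_pos (by norm_num)]
    congr 1
    have : Real.log (3 / 4) = -Real.log (4 / 3) := by
      rw [← Real.log_inv]
      norm_num
    rw [this]
    ring
  rw [h1, Real.rpow_def_of_pos hL0, ← Real.exp_add]
  apply Real.one_le_exp
  have h2 := log43
  have h3 : 0 ≤ Real.log (4 / 3) := Real.log_nonneg (by norm_num)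
  have h4 : (k : ℝ) * Real.log (4 / 3) ≤ 3 / 4 * Real.log L * (3 / 10) :=
    mul_le_mul hk h2 h3 (by positivity)
  linarith

theorem s_DVA (h : S_HTT) : S_DVA := by
  intro w ε hε
  obtain ⟨K, hK0, hK⟩ := h w
  have hK' : ∀ X : ℕ, 2 ≤ X → ∑ n ∈ Icc 1 X, gw w n ≤ K * X * (Real.log X) ^ (-(1 / 4 : ℝ)) :=
    hK
  have hlog : Tendsto (fun x : ℕ => Real.log (x : ℝ)) atTop atTop :=
    Real.tendsto_log_atTop.comp tendsto_natCast_atTop_atTop
  have e1 := ((lim K).comp hlog).eventually (Iio_mem_nhds hε)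
  have e2 : ∀ᶠ y : ℝ in atTop, 9 * Real.log y ≤ y / 4 := by
    have := Real.isLittleO_log_id_atTop.bound (by norm_num : (0 : ℝ) < 1 / 36)
    filter_upwards [this, eventually_ge_atTop 1] with y hy hy1
    rw [Real.norm_of_nonneg (Real.log_nonneg hy1), id, Real.norm_of_nonneg (by linarith)] at hy
    linarith
  have e3 := hlog.eventually (e2.and (eventually_ge_atTop (3 : ℝ)))
  filter_upwards [e1, e3, eventually_ge_atTop 3] with x hx1 hx2 hx3
  obtain ⟨hx2, hL3⟩ := hx2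
  simp only [Function.comp_apply] at hx1
  obtain ⟨L, hL⟩ : ∃ L, L = Real.log (x : ℝ) := ⟨_, rfl⟩
  rw [← hL] at hx1 hx2 hL3 ⊢
  have hx0 : (0 : ℝ) < x := by
    have : 0 < x := by omega
    exact_mod_cast this
  have hL0 : 0 < L := by linarith
  have hlL : 0 ≤ Real.log L := Real.log_nonneg (by linarith)
  have hsq : 0 < Real.sqrt x := Real.sqrt_pos.2 hx0
  have hL9 : 0 < L ^ 9 := by positivity
  obtain ⟨D1, hD1⟩ : ∃ D1, D1 = Real.sqrt x / L ^ 9 := ⟨_, rfl⟩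
  obtain ⟨D2, hD2⟩ : ∃ D2, D2 = Real.sqrt x * L ^ 9 := ⟨_, rfl⟩
  rw [← hD1, ← hD2]
  have hD1p : 0 < D1 := by rw [hD1]; positivity
  have hD2p : 0 < D2 := by rw [hD2]; positivity
  have hlD1 : Real.log D1 = L / 2 - 9 * Real.log L := by
    rw [hD1, Real.log_div hsq.ne' hL9.ne', Real.log_sqrt hx0.le, Real.log_pow, ← hL]
    push_cast
    ring
  have hlD2 : Real.log D2 = L / 2 + 9 * Real.log L := by
    rw [hD2, Real.log_mul hsq.ne' hL9.ne', Real.log_sqrt hx0.le, Real.log_pow, ← hL]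
    push_cast
    ring
  have hlD1' : L / 4 ≤ Real.log D1 := by
    rw [hlD1]
    linarith
  have hD11 : 1 < D1 := by
    by_contra hcon
    push Not at hcon
    have := Real.log_nonpos hD1p.le hcon
    linarith
  have hl2 : (0.6931471803 : ℝ) < Real.log 2 := Real.log_two_gt_d9
  have hl2p : 0 < Real.log 2 := by linarith
  set a := Nat.clog 2 ⌈D1⌉₊ with ha
  set b := Nat.clog 2 ⌊D2⌋₊ with hb
  have hc1 : 1 < ⌈D1⌉₊ := by
    have : (1 : ℝ) < (⌈D1⌉₊ : ℝ) := lt_of_lt_of_le hD11 (Nat.le_ceil D1)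
    exact_mod_cast this
  have ha1 : 1 ≤ a := Nat.clog_pos one_lt_two hc1
  have haD : Real.log D1 ≤ a * Real.log 2 := by
    have h1 : D1 ≤ (2 : ℝ) ^ a := by
      have h2 := Nat.le_pow_clog one_lt_two ⌈D1⌉₊
      have h3 : ((⌈D1⌉₊ : ℕ) : ℝ) ≤ (2 : ℝ) ^ a := by exact_mod_cast h2
      exact (Nat.le_ceil D1).trans h3
    have h4 := Real.log_le_log hD1p h1
    rwa [Real.log_pow] at h4
  obtain ⟨S, hS⟩ : ∃ S, S = (range (x + 1)).filter (fun d : ℕ => D1 ≤ d ∧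
      (d : ℝ) ≤ D2 ∧ (om w d : ℝ) ≤ 3 / 4 * Real.log L) := ⟨_, rfl⟩
  rw [← hS]
  have hSm : ∀ d ∈ S, D1 ≤ d ∧ (d : ℝ) ≤ D2 ∧ (om w d : ℝ) ≤ 3 / 4 * Real.log L := by
    intro d hd
    rw [hS] at hd
    exact (mem_filter.1 hd).2
  have hS1 : ∀ d ∈ S, 1 ≤ d := by
    intro d hd
    have h1 := (hSm d hd).1
    have : (0 : ℝ) < d := by linarith
    exact_mod_cast this
  have hSab : ∀ d ∈ S, a ≤ Nat.clog 2 d ∧ Nat.clog 2 d ≤ b := by
    intro d hd
    obtain ⟨h1, h2, -⟩ := hSm d hd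
    exact ⟨Nat.clog_mono_right 2 (Nat.ceil_le.2 h1), Nat.clog_mono_right 2 (Nat.le_floor h2)⟩
  have hblock := block w K hK' S a b ha1 hS1 hSab
  have hq : (0 : ℝ) ≤ (L / 4) ^ (-(1 / 4 : ℝ)) := Real.rpow_nonneg (by positivity) _
  have hterm : ∀ j ∈ Icc a b, 2 * K * ((j : ℝ) * Real.log 2) ^ (-(1 / 4 : ℝ)) ≤
      2 * K * (L / 4) ^ (-(1 / 4 : ℝ)) := by
    intro j hj
    refine mul_le_mul_of_nonneg_left ?_ (by positivity)
    refine Real.rpow_le_rpow_of_nonpos (by positivity) ?_ (by norm_num)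
    have h1 : (a : ℝ) ≤ j := by exact_mod_cast (mem_Icc.1 hj).1
    have h2 : (a : ℝ) * Real.log 2 ≤ j * Real.log 2 := mul_le_mul_of_nonneg_right h1 hl2p.le
    linarith
  have hcard : ((Icc a b).card : ℝ) ≤ 2 + 27 * Real.log L := by
    rcases lt_or_ge b a with hba | hab
    · rw [Icc_eq_empty (by omega)]
      simp
      linarith
    · rw [Nat.card_Icc]
      have hf1 : 1 ≤ ⌊D2⌋₊ := by
        rw [Nat.one_le_floor_iff]
        have : D1 ≤ D2 := by
          rw [hD1, hD2]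
          have h1 : (1 : ℝ) ≤ L ^ 9 := one_le_pow₀ (by linarith)
          calc Real.sqrt x / L ^ 9 ≤ Real.sqrt x / 1 :=
                div_le_div_of_nonneg_left hsq.le one_pos h1
            _ = Real.sqrt x * 1 := by ring
            _ ≤ Real.sqrt x * L ^ 9 := mul_le_mul_of_nonneg_left h1 hsq.le
        linarith
      have h1 : (2 : ℝ) ^ b ≤ 2 * D2 := by
        have h2 := two_pow_clog_le hf1
        have h3 : (2 : ℝ) ^ b ≤ 2 * (⌊D2⌋₊ : ℝ) := by exact_mod_cast h2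
        have h4 := Nat.floor_le hD2p.le
        linarith
      have h5 : (b : ℝ) * Real.log 2 ≤ Real.log 2 + Real.log D2 := by
        have h6 := Real.log_le_log (by positivity) h1
        rwa [Real.log_pow, Real.log_mul (by norm_num) hD2p.ne'] at h6
      have h7 : ((b : ℝ) - a) * Real.log 2 ≤ Real.log 2 + 18 * Real.log L := by
        rw [sub_mul]
        linarith
      have h8 : (b : ℝ) - a ≤ 1 + 27 * Real.log L := by
        by_contra hcon
        push Not at hcon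
        have h9 : (1 + 27 * Real.log L) * Real.log 2 < ((b : ℝ) - a) * Real.log 2 :=
          mul_lt_mul_of_pos_right hcon hl2p
        nlinarith
      have h10 : ((b + 1 - a : ℕ) : ℝ) = (b : ℝ) + 1 - a := by
        rw [Nat.cast_sub (by omega)]
        push_cast
        ring
      rw [h10]
      linarith
  have hsum : ∑ j ∈ Icc a b, 2 * K * ((j : ℝ) * Real.log 2) ^ (-(1 / 4 : ℝ)) ≤
      (2 + 27 * Real.log L) * (2 * K * (L / 4) ^ (-(1 / 4 : ℝ))) := by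
    calc _ ≤ ∑ _j ∈ Icc a b, 2 * K * (L / 4) ^ (-(1 / 4 : ℝ)) := sum_le_sum hterm
      _ = ((Icc a b).card : ℝ) * (2 * K * (L / 4) ^ (-(1 / 4 : ℝ))) := by
          rw [sum_const, nsmul_eq_mul]
      _ ≤ _ := mul_le_mul_of_nonneg_right hcard (by positivity)
  calc ∑ d ∈ S, (1 : ℝ) / Nat.totient d
      ≤ ∑ d ∈ S, L ^ (9 / 40 : ℝ) * (gw w d / d) := by
        refine sum_le_sum fun d hd => ?_
        have h1 := weight (by linarith : (1 : ℝ) ≤ L) (hSm d hd).2.2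
        have hd0 : (0 : ℝ) < d := by exact_mod_cast hS1 d hd
        have hφ : (0 : ℝ) < Nat.totient d := by
          exact_mod_cast Nat.totient_pos.2 (hS1 d hd)
        have h2 : L ^ (9 / 40 : ℝ) * (gw w d / d) =
            (L ^ (9 / 40 : ℝ) * (3 / 4 : ℝ) ^ (om w d)) * (1 / Nat.totient d) := by
          unfold gw
          field_simp
        rw [h2]
        exact le_mul_of_one_le_left (by positivity) h1
    _ = L ^ (9 / 40 : ℝ) * ∑ d ∈ S, gw w d / d := by rw [mul_sum]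
    _ ≤ L ^ (9 / 40 : ℝ) * ((2 + 27 * Real.log L) * (2 * K * (L / 4) ^ (-(1 / 4 : ℝ)))) :=
        mul_le_mul_of_nonneg_left (hblock.trans hsum) (Real.rpow_nonneg hL0.le _)
    _ ≤ ε := hx1.le

end Pool.Agent.L7h61.BP
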